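import Pool.Agent.MP_8be872_ag.H63.SpecD
import Pool.Agent.MP_8be872_ag.H63.ApiC
import Pool.Agent.MP_8be872_ag.H38.Arb

/-! Module Res: the expansions in `q` and in `q⁻¹` agree after clearing flavour denominators. -/

namespace Pool.Agent.MP_8be872_ag.H51

open Finset H38 H56 H63 Filter

section Gen

variable {Γ : Type} [AddCommGroup Γ]

/-- Shifts of functions. -/
noncomputable def shM : Multiplicative Γ →* Module.End ℚ (Γ → ℚ) where
  toFun β := LinearMap.funLeft ℚ ℚ fun g => g - β.toAdd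
  map_one' := by
    ext ψ g
    simp [LinearMap.funLeft_apply]
  map_mul' a b := by
    refine LinearMap.ext fun ψ => funext fun g => ?_
    simp [LinearMap.funLeft_apply, sub_sub]

/-- The group algebra. -/
abbrev RG (Γ : Type) [AddCommGroup Γ] : Type := AddMonoidAlgebra ℚ Γ

/-- Group elements in the group algebra. -/
noncomputable def ee : Multiplicative Γ →* RG Γ := AddMonoidAlgebra.of ℚ Γ

/-- The action of the group algebra on functions. -/
noncomputable def act : RG Γ →ₐ[ℚ] Module.End ℚ (Γ → ℚ) := AddMonoidAlgebra.lift ℚ _ Γ shM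

theorem act_ee (β : Γ) (ψ : Γ → ℚ) (g : Γ) :
    act (ee (Multiplicative.ofAdd β)) ψ g = ψ (g - β) := by
  rw [act, ee, AddMonoidAlgebra.lift_of]
  rfl

/-- The product of the factors `1 - e^β`. -/
noncomputable def Pm (M : Multiset Γ) : RG Γ :=
  (M.map fun β => 1 - ee (Multiplicative.ofAdd β)).prod

theorem Pm_zero : Pm (0 : Multiset Γ) = 1 := by simp [Pm]

theorem Pm_cons (β : Γ) (M : Multiset Γ) :
    Pm (β ::ₘ M) = (1 - ee (Multiplicative.ofAdd β)) * Pm M := by simp [Pm]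

theorem Pm_add (M M' : Multiset Γ) : Pm (M + M') = Pm M * Pm M' := by simp [Pm]

theorem act_mul (r s : RG Γ) (ψ : Γ → ℚ) : act (r * s) ψ = act r (act s ψ) := by
  rw [map_mul, Module.End.mul_apply]

theorem act_Pm (L : List Γ) (ψ : Γ → ℚ) : act (Pm (L : Multiset Γ)) ψ = shl L ψ := by
  induction L with
  | nil => rw [Multiset.coe_nil, Pm_zero, map_one, Module.End.one_apply, shl_nil]
  | cons β L ih =>
    funext g
    rw [← Multiset.cons_coe, Pm_cons, act_mul, ih, map_sub, map_one, LinearMap.sub_apply,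
      Pi.sub_apply, Module.End.one_apply, act_ee, shl_cons]

/-- The annihilator of a function. -/
noncomputable def Ann (χ : Γ → ℚ) : Ideal (RG Γ) where
  carrier := {r | act r χ = 0}
  zero_mem' := by simp
  add_mem' := fun {a b} ha hb => by
    change act (a + b) χ = 0
    rw [map_add, LinearMap.add_apply, show act a χ = 0 from ha, show act b χ = 0 from hb, add_zero]
  smul_mem' := fun c a ha => by
    change act (c * a) χ = 0
    rw [act_mul, show act a χ = 0 from ha, map_zero]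

theorem mem_Ann {χ : Γ → ℚ} {r : RG Γ} : r ∈ Ann χ ↔ act r χ = 0 := Iff.rfl

theorem act_bdd (l : Γ →+ ℤ) {χ : Γ → ℚ} (h : ∀ γ, l γ ≠ 0 → χ γ = 0) (r : RG Γ) :
    ∃ N : ℤ, ∀ γ, N < |l γ| → act r χ γ = 0 := by
  induction r using AddMonoidAlgebra.induction_on with
  | of m =>
    refine ⟨|l m|, fun γ hγ => ?_⟩
    have := act_ee m χ γ
    rw [ee] at this
    rw [this]
    refine h _ fun h0 => ?_
    rw [map_sub, sub_eq_zero] at h0
    rw [h0] at hγ
    exact lt_irrefl _ hγ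
  | add x y hx hy =>
    obtain ⟨N, hN⟩ := hx
    obtain ⟨N', hN'⟩ := hy
    refine ⟨max N N', fun γ hγ => ?_⟩
    rw [map_add, LinearMap.add_apply, Pi.add_apply, hN γ (lt_of_le_of_lt (le_max_left _ _) hγ),
      hN' γ (lt_of_le_of_lt (le_max_right _ _) hγ), add_zero]
  | smul c x hx =>
    obtain ⟨N, hN⟩ := hx
    refine ⟨N, fun γ hγ => ?_⟩
    rw [map_smul, LinearMap.smul_apply, Pi.smul_apply, hN γ hγ, smul_zero]

theorem Pm_split (β₀ y : Γ) (M : Multiset Γ) : ∃ V c : RG Γ, Pm (M.map fun γ => β₀ + γ) =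
    (1 - ee (Multiplicative.ofAdd (β₀ + y))) * V + c * Pm (M.map fun γ => y - γ) := by
  induction M using Multiset.induction_on with
  | empty => exact ⟨0, 1, by simp [Pm_zero]⟩
  | cons γ M ih =>
    obtain ⟨V, c, h⟩ := ih
    have e1 : ee (Multiplicative.ofAdd (β₀ + y)) =
        ee (Multiplicative.ofAdd (β₀ + γ)) * ee (Multiplicative.ofAdd (y - γ)) := by
      rw [← map_mul, ← ofAdd_add]
      congr 2
      abel
    rw [Multiset.map_cons, Multiset.map_cons, Pm_cons, Pm_cons, h, e1]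
    generalize ee (Multiplicative.ofAdd (β₀ + γ)) = a
    generalize ee (Multiplicative.ofAdd (y - γ)) = b
    generalize Pm (M.map fun γ => y - γ) = P
    exact ⟨(1 - a) * V + c * P, -a * c, by ring⟩

theorem exists_L (χ : Γ → ℚ) (good : Γ → Prop) (LD : List Γ)
    (h : ∀ β ∈ LD, ∃ M : Multiset Γ, (∀ γ ∈ M, good γ) ∧ ∃ V r : RG Γ, r ∈ Ann χ ∧
      Pm M = (1 - ee (Multiplicative.ofAdd β)) * V + r) :
    ∃ M : Multiset Γ, (∀ γ ∈ M, good γ) ∧ ∃ V r : RG Γ, r ∈ Ann χ ∧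
      Pm M = Pm (LD : Multiset Γ) * V + r := by
  induction LD with
  | nil => exact ⟨0, by simp, 1, 0, zero_mem _, by simp [Pm_zero]⟩
  | cons β LD ih =>
    obtain ⟨M, h1, V, r, h2, h3⟩ := ih fun β' hβ' => h β' (List.mem_cons_of_mem _ hβ')
    obtain ⟨M', h4, V', r', h5, h6⟩ := h β List.mem_cons_self
    refine ⟨M' + M, fun γ hγ => (Multiset.mem_add.1 hγ).elim (h4 γ) (h1 γ), V' * V,
      (1 - ee (Multiplicative.ofAdd β)) * V' * r + r' * Pm M,
      add_mem (Ideal.mul_mem_left _ _ h2) (Ideal.mul_mem_right _ _ h5), ?_⟩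
    rw [Pm_add, h6, ← Multiset.cons_coe, Pm_cons, add_mul, h3]
    ring

theorem uniq (l : Γ →+ ℤ) {χ E : Γ → ℚ} (hχ : ∀ γ, l γ ≠ 0 → χ γ = 0) {LD LN L : List Γ}
    (hD : ∀ β ∈ LD, l β ≠ 0) {C : ℤ} (hE : ∀ γ, C < l γ → E γ = 0) (h : shl LD E = shl LN χ)
    {V r : RG Γ} (hr : r ∈ Ann χ) (hL : Pm (L : Multiset Γ) = Pm (LD : Multiset Γ) * V + r) :
    shl L E = act (V * Pm (LN : Multiset Γ)) χ := by
  obtain ⟨C', hC'⟩ := apiC_bdd l L E C hE
  obtain ⟨N, hN⟩ := act_bdd l hχ (V * Pm (LN : Multiset Γ))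
  rw [← sub_eq_zero]
  refine shl_inj l LD hD _ (max C' N) (fun γ hγ => ?_) ?_
  · rw [Pi.sub_apply, hC' γ (lt_of_le_of_lt (le_max_left _ _) hγ),
      hN γ (lt_of_lt_of_le (lt_of_le_of_lt (le_max_right _ _) hγ) (le_abs_self _)), sub_zero]
  · rw [← act_Pm, map_sub, act_Pm, shl_comm, h, ← act_Pm L, ← act_Pm LN, ← act_mul, ← act_mul, hL,
      ← LinearMap.sub_apply, ← map_sub]
    have e : (Pm (LD : Multiset Γ) * V + r) * Pm (LN : Multiset Γ) -
        Pm (LD : Multiset Γ) * (V * Pm (LN : Multiset Γ)) = Pm (LN : Multiset Γ) * r := by ring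
    rw [e, act_mul, mem_Ann.1 hr, map_zero]

end Gen

/-! ### Convolution with locally finite series -/

/-- Convolution. -/
noncomputable def cv (χ : G → ℚ) (U : K) (γ : G) : ℚ := ∑ᶠ β, U.coeff β * χ (γ - β)

theorem cv_fin {χ : G → ℚ} (hχ : ∀ γ, co 0 γ ≠ 0 → χ γ = 0) {U : K} (hU : U ∈ LF) (γ : G) :
    (Function.support fun β => U.coeff β * χ (γ - β)).Finite := by
  refine (hU (co 0 γ)).subset fun β hβ => ?_
  have := mul_ne_zero_iff.mp hβ
  refine ⟨this.1, ?_⟩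
  have h1 := mt (hχ _) this.2
  simp only [map_sub, ne_eq, not_not] at h1
  omega

theorem cv_one (χ : G → ℚ) : cv χ 1 = χ := by
  funext γ
  rw [cv, finsum_eq_single _ 0]
  · simp
  · intro β hβ
    rw [← mon_zero, mon, HahnSeries.coeff_single_of_ne hβ, zero_mul]

theorem cv_mon (χ : G → ℚ) (U : K) (b γ : G) : cv χ (mon b * U) γ = cv χ U (γ - b) := by
  rw [cv, cv, ← finsum_comp_equiv (Equiv.addRight b)]
  refine finsum_congr fun β => ?_
  rw [coeff_mon_mul, Equiv.coe_addRight, add_sub_cancel_right, sub_sub, add_comm b]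

theorem prod_LF (L : List G) : (L.map fun β => 1 - mon β).prod ∈ LF :=
  list_prod_mem fun x hx => by
    obtain ⟨β, -, rfl⟩ := List.mem_map.1 hx
    exact sub_mem (one_mem _) (mon_LF β)

theorem shl_cv {χ : G → ℚ} (hχ : ∀ γ, co 0 γ ≠ 0 → χ γ = 0) {U : K} (hU : U ∈ LF) (L : List G) :
    shl L (cv χ U) = cv χ ((L.map fun β => 1 - mon β).prod * U) := by
  induction L with
  | nil => simp [shl_nil]
  | cons β L ih =>
    funext g
    have h1 := mul_mem (prod_LF L) hU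
    rw [shl_cons, ih, List.map_cons, List.prod_cons, mul_assoc, sub_mul, one_mul, ← cv_mon]
    generalize (L.map fun β => 1 - mon β).prod * U = W at h1
    rw [cv, cv, cv, ← finsum_sub_distrib (cv_fin hχ h1 g) (cv_fin hχ (mul_mem (mon_LF β) h1) g)]
    refine finsum_congr fun b => ?_
    rw [HahnSeries.coeff_sub, sub_mul]

theorem cv_bdd {χ : G → ℚ} (hχ : ∀ γ, co 0 γ ≠ 0 → χ γ = 0) (U : K) :
    ∃ C : ℤ, ∀ γ, C < (-co 0) γ → cv χ U γ = 0 := by
  obtain ⟨B, hB⟩ := exists_FF U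
  refine ⟨-B, fun γ hγ => finsum_eq_zero_of_forall_eq_zero fun β => ?_⟩
  by_cases h : U.coeff β = 0
  · rw [h, zero_mul]
  · have h1 : B ≤ co 0 β := hB h
    rw [AddMonoidHom.neg_apply] at hγ
    rw [hχ _ (by rw [map_sub]; omega), mul_zero]

/-! ### The recurrences of `chi` -/

/-- Series on whose support `l` is bounded below. -/
def BdM (l : G →+ ℤ) : Submonoid K where
  carrier := {f | ∃ N, f ∈ Sup (Ge l N)}
  one_mem' := ⟨0, mon_mem (S := Ge l 0) (g := 0) (by simp [Ge])⟩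
  mul_mem' := by
    rintro a b ⟨N, hN⟩ ⟨N', hN'⟩
    exact ⟨N + N', mul_Ge hN hN'⟩

theorem one_sub_BdM (l : G →+ ℤ) (g : G) : 1 - mon g ∈ BdM l :=
  ⟨min 0 (l g), sub_mem (mon_mem (S := Ge l _) (g := 0) (by simp [Ge]))
    (mon_mem (S := Ge l _) (by simp [Ge]))⟩

variable {Q : Quiv} {w v : Fin Q.n → ℕ}

theorem arr_S0 (ε : Arr Q) : arrWt Q ε ∈ S0 := by
  have ht : tau ∈ S0 := ⟨fun i a => co_ix_tau _ _, H38.co0_tau⟩
  have hE : ∀ e, tE e ∈ S0 := fun e => ⟨fun i a => co_ix_tE _ _ _, H38.co0_tE _⟩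
  obtain ⟨_ | e, _ | _⟩ := ε
  exacts [neg_mem ht, neg_mem ht, sub_mem (neg_mem (hE e)) ht, sub_mem (hE e) ht]

theorem wt_pos (c : Co Q w v) : 0 < polWt (basWt Q w v) (arrWt Q) 0 (some c) := by
  obtain ⟨ε, p, q⟩ := c
  have h := wtData Q w v
  refine pos_of_co1 ?_ ?_
  · simp [polWt, co0_basWt, co0_arrWt]
  · simp [polWt, h.sx, h.st]

theorem det_wt (B : Finset (Bas Q v)) (c : Co Q w v)
    (hc : (∑ b ∈ B, xi Q v b) (polWt (basWt Q w v) (arrWt Q) 0 (some c)) < 0) :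
    Det S0 univ (fun a : Bas Q v => xV a.1 a.2) B (polWt (basWt Q w v) (arrWt Q) 0 (some c)) := by
  classical
  obtain ⟨ε, p, q⟩ := c
  intro H h1 h2 h3
  have hW := wtData Q w v
  have k0 : (∑ b ∈ B, xi Q v b) (arrWt Q ε) = 0 := by
    rw [AddMonoidHom.finsetSum_apply]
    exact sum_eq_zero fun b _ => hW.xt b ε
  have k1 : ∀ p : Bas Q v ⊕ Bas Q w, (¬ ∃ b ∈ B, p = .inl b) →
      basWt Q w v p ∈ H ∧ (∑ b ∈ B, xi Q v b) (basWt Q w v p) = 0 := by
    rintro (a | a) hp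
    · refine ⟨h3 a (mem_univ _) fun ha => hp ⟨a, ha, rfl⟩, ?_⟩
      rw [AddMonoidHom.finsetSum_apply]
      refine sum_eq_zero fun b hb => ?_
      rw [hW.xx, if_neg]
      rintro rfl
      exact hp ⟨_, hb, rfl⟩
    · refine ⟨h1 ⟨fun i a => co_ix_uF _ _ _ _, H38.co0_uF _ _⟩, ?_⟩
      rw [AddMonoidHom.finsetSum_apply]
      exact sum_eq_zero fun b _ => hW.xu b a
  have k2 : ∀ b ∈ B, (∑ b ∈ B, xi Q v b) (basWt Q w v (.inl b)) = 1 := by
    intro b hb
    rw [AddMonoidHom.finsetSum_apply, sum_eq_single b]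
    · rw [hW.xx, if_pos rfl]
    · intro a _ ha
      rw [hW.xx, if_neg ha]
    · exact fun h => (h hb).elim
  simp only [polWt, map_neg, map_add, map_sub, k0] at hc h2
  have h4 : basWt Q w v p - basWt Q w v q ∈ H :=
    (H.add_mem_cancel_right (h1 (arr_S0 ε))).1 (neg_mem_iff.1 h2)
  by_cases hp : ∃ b ∈ B, p = .inl b
  · obtain ⟨b, hb, rfl⟩ := hp
    by_cases hq : ∃ b ∈ B, q = .inl b
    · obtain ⟨b', hb', rfl⟩ := hq
      rw [k2 b hb, k2 b' hb'] at hc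
      omega
    · exact ⟨b, hb, by simpa [basWt] using add_mem h4 (k1 q hq).1⟩
  · rw [(k1 p hp).2] at hc
    by_cases hq : ∃ b ∈ B, q = .inl b
    · obtain ⟨b', hb', rfl⟩ := hq
      rw [k2 b' hb'] at hc
      omega
    · rw [(k1 q hq).2] at hc
      omega

theorem cut_fix (e : Fin Q.n → ℕ → ℤ) (B : Finset (Bas Q v)) : ∃ C : List G,
    (∀ g ∈ C, Det S0 univ (fun a : Bas Q v => xV a.1 a.2) B g) ∧
      (C.map fun g => 1 - mon g).prod * fixB Q w v e ∈ BdM (∑ b ∈ B, xi Q v b) := by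
  classical
  generalize hl : ∑ b ∈ B, xi Q v b = l
  let wc : Co Q w v → G := fun c => polWt (basWt Q w v) (arrWt Q) 0 (some c)
  let s : Finset (Co Q w v) := univ.filter fun c => allowed Q w v e c
  refine ⟨(s.filter fun c => l (wc c) < 0).toList.map wc, fun g hg => ?_, ?_⟩
  · obtain ⟨c, hc, rfl⟩ := List.mem_map.1 hg
    exact det_wt B c (hl ▸ (mem_filter.1 (mem_toList.1 hc)).2)
  · have e1 : fixB Q w v e =
        (∏ r : Subtype (RootP Q v), (1 - mon (xV r.1.2.1 r.1.2.2 - xV r.1.1.1 r.1.1.2))) *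
        (∏ β : Subtype (RelP Q v e), (1 - mon (relWt Q v e β))) *
        ∏ c ∈ s, (1 - mon (wc c))⁻¹ := rfl
    rw [List.map_map, prod_map_toList, e1, mul_left_comm,
      ← prod_filter_mul_prod_filter_not s (fun c => l (wc c) < 0), ← mul_assoc (∏ _ ∈ _, _),
      ← prod_mul_distrib]
    refine mul_mem (mul_mem (prod_mem fun _ _ => one_sub_BdM _ _)
      (prod_mem fun _ _ => one_sub_BdM _ _)) (mul_mem (prod_mem fun c _ => ?_)
      (prod_mem fun c hc => ?_))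
    · rw [Function.comp_apply, mul_inv_cancel₀ (one_sub_mon_ne (wt_pos c).ne')]
      exact one_mem _
    · exact ⟨0, geo_mem (S := Ge0 l) (wt_pos c) (not_lt.1 (mem_filter.1 hc).2)⟩

theorem kill_chi {e : Fin Q.n → ℕ → ℤ} {φ : G} {χ : G → ℚ} {C₀ : ℤ}
    (hχ : ∀ (γ : G) (k : ℕ), (∀ a, xi Q v a γ - k ≤ -C₀) → χ γ = (fixB Q w v e).coeff (γ + k • φ))
    {l : G →+ ℤ} (hl : l φ < 0) {C : List G}
    (h : (C.map fun g => 1 - mon g).prod * fixB Q w v e ∈ BdM l) : shl C χ = 0 := by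
  funext γ
  obtain ⟨N, hN⟩ := h
  obtain ⟨s, -, hs⟩ := shl_dep (A := ℚ) ⊤ C (fun _ _ => AddSubgroup.mem_top _) γ
  obtain ⟨k, hk1, hk2⟩ := (((eventually_all_finset s).2 fun γ' _ =>
    ev_deep (Q := Q) (v := v) C₀ γ').and (eventually_ge_atTop (l γ - N + 1).toNat)).exists
  rw [hs χ (fun γ' => (fixB Q w v e).coeff (γ' - -(k • φ)))
    (fun γ' hγ' => by rw [hχ γ' k (hk1 γ' hγ'), sub_neg_eq_add]), shl_shift, shl_coeff,
    Pi.zero_apply]
  by_contra h0
  have h1 : N ≤ l (γ - -(k • φ)) := hN h0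
  rw [sub_neg_eq_add, map_add, map_nsmul, nsmul_eq_mul] at h1
  have h2 : l γ - N + 1 ≤ k := by omega
  have h3 : (k : ℤ) * l φ ≤ k * (-1) := mul_le_mul_of_nonneg_left (by omega) (Nat.cast_nonneg k)
  omega

theorem recur_chi {e : Fin Q.n → ℕ → ℤ} {φ : G} {χ : G → ℚ} {C₀ : ℤ}
    (hχ : ∀ (γ : G) (k : ℕ), (∀ a, xi Q v a γ - k ≤ -C₀) → χ γ = (fixB Q w v e).coeff (γ + k • φ))
    (hφ : ∀ a : Bas Q v, xi Q v a φ = -1) (n : Bas Q v → ℤ) :
    ∃ M : Multiset G, (∀ γ ∈ M, γ ∈ S0) ∧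
      Pm (M.map fun γ => ∑ a, n a • xV a.1 a.2 - γ) ∈ Ann χ := by
  classical
  have hJ : ∀ (C : Multiset G) (f : G → G), (C.map fun g => 1 -
      ((Ideal.Quotient.mk (Ann χ)).toMonoidHom.comp ee) (Multiplicative.ofAdd (f g))).prod = 0 ↔
      Pm (C.map f) ∈ Ann χ := by
    intro C f
    rw [← Ideal.Quotient.eq_zero_iff_mem, Pm, map_multiset_prod, Multiset.map_map, Multiset.map_map]
    refine Eq.congr_left (congrArg _ (Multiset.map_congr rfl fun g _ => ?_))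
    simp
  obtain ⟨M, h1, h2⟩ := arb S0 univ (fun a : Bas Q v => xV a.1 a.2)
    (y := ∑ a, n a • xV a.1 a.2)
    (fun H hH => sum_mem fun a ha => H.zsmul_mem (hH a ha) _) _ _
    ((Ideal.Quotient.mk (Ann χ)).toMonoidHom.comp ee) (fun B _ hne => by
      obtain ⟨C, a1, a2⟩ := cut_fix (w := w) e B
      refine ⟨C, fun g hg => a1 g (Multiset.mem_coe.1 hg), (hJ C id).2 ?_⟩
      rw [Multiset.map_id, mem_Ann, act_Pm]
      refine kill_chi hχ ?_ a2
      rw [AddMonoidHom.finsetSum_apply, sum_congr rfl fun b _ => hφ b, sum_const]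
      have := hne.card_pos
      simp only [smul_neg, nsmul_eq_mul, mul_one, Left.neg_neg_iff, Nat.cast_pos]
      exact this) (Nat.lt_succ_self _)
  exact ⟨M, h1, (hJ M _).1 h2⟩

theorem resS_stmt : ResStmt := by
  intro Q w v e F φ hF h0 hφ LD LN E C U hD hE hDN hU hUD
  obtain ⟨C₀, hC₀⟩ := hF
  have hc : ∀ (L : List G) (ψ : G → ℤ) (g : G),
      ((shl L ψ g : ℤ) : ℚ) = shl L (fun γ => (ψ γ : ℚ)) g := fun L ψ g =>
    (shl_map (Int.castAddHom ℚ) L ψ g).symm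
  have hχ : ∀ (γ : G) (k : ℕ), (∀ a, xi Q v a γ - k ≤ -C₀) →
      (fun γ => (chi Q w v e F φ γ : ℚ)) γ = (fixB Q w v e).coeff (γ + k • φ) :=
    fun γ k h => (hC₀ γ k h).2
  have hDN' : shl LD (fun γ => (E γ : ℚ)) = shl LN fun γ => (chi Q w v e F φ γ : ℚ) :=
    funext fun g => by rw [← hc, ← hc, hDN]
  change ∃ L : List G, (∀ β ∈ L, free β ∧ co 0 β ≠ 0) ∧ ∀ g, ((shl L E g : ℤ) : ℚ) =
    shl L (cv (fun γ => (chi Q w v e F φ γ : ℚ)) U) g
  generalize (fun γ => (chi Q w v e F φ γ : ℚ)) = χ at hχ hDN'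
  have hz : ∀ γ, co 0 γ ≠ 0 → χ γ = 0 := fun γ hγ => by
    obtain ⟨k, hk⟩ := (ev_deep (Q := Q) (v := v) C₀ γ).exists
    rw [hχ γ k hk, fixB_coeff]
    simpa [h0] using hγ
  obtain ⟨M, h1, V, r, h2, h3⟩ := exists_L χ (fun β => free β ∧ co 0 β ≠ 0) LD fun β hβ => by
    obtain ⟨b0, n, bn⟩ := hD β hβ
    obtain ⟨M, m1, m2⟩ := recur_chi hχ hφ n
    obtain ⟨V, c, hV⟩ := Pm_split (β - ∑ a, n a • xV a.1 a.2) (∑ a, n a • xV a.1 a.2) M
    rw [sub_add_cancel] at hV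
    refine ⟨_, fun γ hγ => ?_, V, _, Ideal.mul_mem_left _ c m2, hV⟩
    obtain ⟨γ', hγ', rfl⟩ := Multiset.mem_map.1 hγ
    have g1 : co 0 γ' = 0 := (m1 γ' hγ').2
    refine ⟨(show _ ∈ Sall from Sall.add_mem (show _ ∈ Sall from bn) (m1 γ' hγ').1), ?_⟩
    simpa [g1, H38.co0_xV] using b0
  obtain ⟨L, rfl⟩ := Quotient.exists_rep M
  obtain ⟨C', hC'⟩ := cv_bdd hz U
  have e1 := uniq (co 0) hz (L := L) (fun β hβ => (hD β hβ).1) (C := C)
    (fun γ hγ => by simp [hE γ hγ]) hDN' h2 h3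
  have e2 := uniq (-co 0) (fun γ hγ => hz γ (by simpa using hγ)) (L := L) (LN := LN)
    (fun β hβ => by simpa using (hD β hβ).1) hC'
    (by rw [shl_cv hz hU, mul_comm, hUD, ← mul_one (List.prod _), ← shl_cv hz (one_mem _), cv_one])
    h2 h3
  exact ⟨L, fun β hβ => h1 β (Multiset.mem_coe.2 hβ), fun g => by rw [hc, e1, e2]⟩

end Pool.Agent.MP_8be872_ag.H51
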